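import Pool.Agent.H19.OM.Stm

set_option autoImplicit false

/-!
# Module SHI: the shift of independent Poisson variables
-/

namespace Pool.Agent.H5.OM

open Finset MeasureTheory ProbabilityTheory Pool.Agent.H19.OM
open scoped NNReal ENNReal

theorem one_dim (a : ℝ≥0) (ha : 0 < a) (u z : ℕ) :
    ENNReal.ofReal ((z.descFactorial u : ℝ) / (a : ℝ) ^ u) * poissonMeasure a {z} =
      if u ≤ z then poissonMeasure a {z - u} else 0 := by
  have ha' : (a : ℝ) ≠ 0 := by positivity
  split_ifs with h
  · rw [poissonMeasure_singleton, poissonMeasure_singleton, ← ENNReal.ofReal_mul (by positivity)]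
    congr 1
    obtain ⟨n, rfl⟩ := Nat.exists_eq_add_of_le h
    rw [Nat.add_sub_cancel_left]
    have h1 : (n.factorial : ℝ) * ((u + n).descFactorial u : ℝ) = (u + n).factorial := by
      have h2 := Nat.factorial_mul_descFactorial (show u ≤ u + n by omega)
      rw [Nat.add_sub_cancel_left] at h2
      exact_mod_cast h2
    have h3 : (n.factorial : ℝ) ≠ 0 := by exact_mod_cast n.factorial_ne_zero
    have h4 : ((u + n).factorial : ℝ) ≠ 0 := by exact_mod_cast (u + n).factorial_ne_zero
    have h5 : (a : ℝ) ^ u ≠ 0 := pow_ne_zero _ ha'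
    rw [div_mul_div_comm, div_eq_div_iff (mul_ne_zero h5 h4) h3, pow_add, ← h1]
    ring
  · rw [Nat.descFactorial_eq_zero_iff_lt.2 (by omega), Nat.cast_zero, zero_div, ENNReal.ofReal_zero,
      zero_mul]

theorem map_eq (a : ℝ≥0) (ha : 0 < a) (k : ℕ) (u : Fin k → ℕ) :
    (Measure.pi (fun _ : Fin k => poissonMeasure a)).map (fun w => w + u) =
      (Measure.pi (fun _ : Fin k => poissonMeasure a)).withDensity
        (fun w => ENNReal.ofReal (gg a u w)) := by
  refine Measure.ext_of_singleton fun z => ?_
  rw [Measure.map_apply (measurable_of_countable _) (measurableSet_singleton z),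
    withDensity_apply _ (measurableSet_singleton z), lintegral_singleton, Measure.pi_singleton]
  have h1 : ENNReal.ofReal (gg a u z) * ∏ i, poissonMeasure a {z i} =
      ∏ i, if u i ≤ z i then poissonMeasure a {z i - u i} else 0 := by
    unfold gg
    rw [ENNReal.ofReal_prod_of_nonneg (fun i _ => by positivity), ← Finset.prod_mul_distrib]
    exact Finset.prod_congr rfl fun i _ => one_dim a ha (u i) (z i)
  rw [h1]
  by_cases h : ∀ i, u i ≤ z i
  · have h2 : (fun w : Fin k → ℕ => w + u) ⁻¹' {z} = {fun i => z i - u i} := by
      ext w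
      simp only [Set.mem_preimage, Set.mem_singleton_iff]
      constructor
      · rintro rfl
        funext i
        simp
      · rintro rfl
        funext i
        exact Nat.sub_add_cancel (h i)
    rw [h2, Measure.pi_singleton]
    exact Finset.prod_congr rfl fun i _ => by rw [if_pos (h i)]
  · push Not at h
    obtain ⟨i, hi⟩ := h
    have h2 : (fun w : Fin k → ℕ => w + u) ⁻¹' {z} = ∅ := by
      ext w
      simp only [Set.mem_preimage, Set.mem_singleton_iff, Set.mem_empty_iff_false, iff_false]
      rintro rfl
      have : (w + u) i = w i + u i := rfl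
      omega
    rw [h2, measure_empty]
    exact (Finset.prod_eq_zero (Finset.mem_univ i) (by rw [if_neg (by omega)])).symm

theorem gg_nonneg (a : ℝ≥0) {k : ℕ} (u w : Fin k → ℕ) : 0 ≤ gg a u w :=
  Finset.prod_nonneg fun i _ => by positivity

/-- the density is integrable -/
theorem gg_int (a : ℝ≥0) (ha : 0 < a) {k : ℕ} (u : Fin k → ℕ) :
    Integrable (fun w => gg a u w) (Measure.pi (fun _ : Fin k => poissonMeasure a)) := by
  refine ⟨(measurable_of_countable _).aestronglyMeasurable, ?_⟩
  rw [hasFiniteIntegral_iff_ofReal (Filter.Eventually.of_forall fun w => gg_nonneg a u w)]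
  have h1 := congrArg (fun ν : Measure (Fin k → ℕ) => ν Set.univ) (map_eq a ha k u)
  simp only at h1
  rw [withDensity_apply _ MeasurableSet.univ, Measure.restrict_univ,
    Measure.map_apply (measurable_of_countable _) MeasurableSet.univ] at h1
  rw [← h1]
  exact measure_lt_top _ _

/-- **Module SHI.** -/
theorem t_SHI : S_SHI := by
  intro a ha k u φ hφ
  constructor
  · refine Integrable.mono' (gg_int a ha u) (measurable_of_countable _).aestronglyMeasurable ?_
    refine Filter.Eventually.of_forall fun w => ?_
    rw [Real.norm_eq_abs, abs_mul, abs_of_nonneg (gg_nonneg a u w)]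
    exact mul_le_of_le_one_left (gg_nonneg a u w) (hφ w)
  · unfold P
    have h1 : ∫ w, φ (w + u) ∂(Measure.pi (fun _ : Fin k => poissonMeasure a)) =
        ∫ w, φ w ∂((Measure.pi (fun _ : Fin k => poissonMeasure a)).map (fun w => w + u)) :=
      (integral_map (measurable_of_countable _).aemeasurable
        (measurable_of_countable φ).aestronglyMeasurable).symm
    rw [h1, map_eq a ha k u, integral_withDensity_eq_integral_toReal_smul (measurable_of_countable _)
      (Filter.Eventually.of_forall fun w => ENNReal.ofReal_lt_top)]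
    refine integral_congr_ae (Filter.Eventually.of_forall fun w => ?_)
    simp only [smul_eq_mul]
    rw [ENNReal.toReal_ofReal (gg_nonneg a u w), mul_comm]

end Pool.Agent.H5.OM
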