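import Pool.Agent.H19.OM.Stm4
import Pool.Agent.H5.OM.Shi
import Pool.Agent.H95.OM.Gra

set_option autoImplicit false

/-!
# Module AFF: two shifts of the product of Poisson laws overlap
-/

namespace Pool.Agent.H5.OM

open Finset MeasureTheory ProbabilityTheory Pool.Agent.H19.OM
open scoped NNReal ENNReal

/-- the shift identity for all functions -/
theorem shift (a : ℝ≥0) (ha : 0 < a) {k : ℕ} (u : Fin k → ℕ) (ψ : (Fin k → ℕ) → ℝ) :
    ∫ w, ψ (w + u) ∂(Measure.pi (fun _ : Fin k => poissonMeasure a)) =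
      ∫ w, ψ w * gg a u w ∂(Measure.pi (fun _ : Fin k => poissonMeasure a)) := by
  have h1 : ∫ w, ψ (w + u) ∂(Measure.pi (fun _ : Fin k => poissonMeasure a)) =
      ∫ w, ψ w ∂((Measure.pi (fun _ : Fin k => poissonMeasure a)).map (fun w => w + u)) :=
    (integral_map (measurable_of_countable _).aemeasurable
      (measurable_of_countable ψ).aestronglyMeasurable).symm
  rw [h1, map_eq a ha k u, integral_withDensity_eq_integral_toReal_smul (measurable_of_countable _)
    (Filter.Eventually.of_forall fun w => ENNReal.ofReal_lt_top)]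
  refine integral_congr_ae (Filter.Eventually.of_forall fun w => ?_)
  simp only [smul_eq_mul]
  rw [ENNReal.toReal_ofReal (gg_nonneg a u w), mul_comm]

theorem shift_int (a : ℝ≥0) (ha : 0 < a) {k : ℕ} (u : Fin k → ℕ) (ψ : (Fin k → ℕ) → ℝ)
    (h : Integrable (fun w => ψ w * gg a u w) (Measure.pi (fun _ : Fin k => poissonMeasure a))) :
    Integrable (fun w => ψ (w + u)) (Measure.pi (fun _ : Fin k => poissonMeasure a)) := by
  have h1 : Integrable ψ ((Measure.pi (fun _ : Fin k => poissonMeasure a)).map (fun w => w + u)) := by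
    rw [map_eq a ha k u, integrable_withDensity_iff_integrable_smul' (measurable_of_countable _)
      (Filter.Eventually.of_forall fun w => ENNReal.ofReal_lt_top)]
    refine h.congr (Filter.Eventually.of_forall fun w => ?_)
    simp only [smul_eq_mul]
    rw [ENNReal.toReal_ofReal (gg_nonneg a u w), mul_comm]
  exact (integrable_map_measure (measurable_of_countable ψ).aestronglyMeasurable
    (measurable_of_countable _).aemeasurable).1 h1

theorem gg_total (a : ℝ≥0) (ha : 0 < a) {k : ℕ} (u : Fin k → ℕ) :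
    ∫ w, gg a u w ∂(Measure.pi (fun _ : Fin k => poissonMeasure a)) = 1 := by
  have h1 := shift a ha u (fun _ => (1 : ℝ))
  simp only [one_mul] at h1
  rw [← h1]
  simp

theorem gg_mul (a : ℝ≥0) {k : ℕ} (d e : Fin k → ℕ) (h : ∀ i, d i = 0 ∨ e i = 0) (w : Fin k → ℕ) :
    gg a d w * gg a e w = gg a (d + e) w := by
  unfold gg
  rw [← Finset.prod_mul_distrib]
  refine Finset.prod_congr rfl fun i _ => ?_
  rw [Pi.add_apply]
  rcases h i with h1 | h1
  · rw [h1, zero_add]
    simp
  · rw [h1, add_zero]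
    simp

theorem cc_nonneg (a : ℝ≥0) (m n : ℕ) : 0 ≤ cc a m n :=
  Finset.sum_nonneg fun j _ => by positivity

theorem cc_le (a : ℝ≥0) (ha : 0 < a) (m : ℕ) : cc a m m ≤ Real.exp ((m : ℝ) ^ 2 / a) := by
  have ha' : (0 : ℝ) < a := by exact_mod_cast ha
  refine le_trans ?_ (Real.sum_le_exp_of_nonneg (x := (m : ℝ) ^ 2 / a) (by positivity) (m + 1))
  unfold cc
  refine Finset.sum_le_sum fun j _ => ?_
  have h1 : (m.choose j : ℝ) ≤ (m : ℝ) ^ j / j.factorial := Nat.choose_le_pow_div j m
  have hj : (0 : ℝ) < j.factorial := by exact_mod_cast j.factorial_pos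
  have h2 : (m.choose j : ℝ) * m.choose j * j.factorial ≤ (m : ℝ) ^ (2 * j) / j.factorial := by
    calc (m.choose j : ℝ) * m.choose j * j.factorial ≤
          ((m : ℝ) ^ j / j.factorial) * ((m : ℝ) ^ j / j.factorial) * j.factorial := by
          refine mul_le_mul_of_nonneg_right ?_ hj.le
          exact mul_le_mul h1 h1 (Nat.cast_nonneg _) (by positivity)
      _ = (m : ℝ) ^ (2 * j) / j.factorial := by
          field_simp
          ring
  rw [div_pow, ← pow_mul, div_right_comm]
  exact div_le_div_of_nonneg_right h2 (by positivity)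

theorem tang {θ x : ℝ} (hθ : 0 ≤ θ) (hx : 0 < x) :
    3 / 2 * θ - 1 / 2 * θ ^ 3 * x ≤ 1 / Real.sqrt x := by
  have hy : 0 < Real.sqrt x := Real.sqrt_pos.2 hx
  have h1 : x = Real.sqrt x ^ 2 := (Real.sq_sqrt hx.le).symm
  rw [le_div_iff₀ hy]
  set y := Real.sqrt x
  rw [h1]
  have h2 : 0 ≤ (θ * y - 1) ^ 2 * (θ * y + 2) := by positivity
  nlinarith [h2]

theorem abs_sub_le_aff {f g θ : ℝ} (hf : 0 ≤ f) (hg : 0 ≤ g) (hθ : 0 ≤ θ) :
    |f - g| ≤ (1 + θ ^ 2 / 2) * (f + g) - 2 * θ * Real.sqrt (f * g) := by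
  have key : ∀ f g : ℝ, 0 ≤ f → 0 ≤ g →
      g - f ≤ (1 + θ ^ 2 / 2) * (f + g) - 2 * θ * Real.sqrt (f * g) := by
    intro f g hf hg
    have h1 : Real.sqrt (f * g) = Real.sqrt f * Real.sqrt g := Real.sqrt_mul hf g
    have h2 : Real.sqrt f ^ 2 = f := Real.sq_sqrt hf
    have h3 : Real.sqrt g ^ 2 = g := Real.sq_sqrt hg
    have h4 : 0 ≤ (2 * Real.sqrt f - θ * Real.sqrt g) ^ 2 := sq_nonneg _
    have h5 : (2 * Real.sqrt f - θ * Real.sqrt g) ^ 2 =
        4 * Real.sqrt f ^ 2 - 4 * θ * (Real.sqrt f * Real.sqrt g) + θ ^ 2 * Real.sqrt g ^ 2 := by ring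
    rw [h5, h2, h3, ← h1] at h4
    have h6 : 0 ≤ θ ^ 2 * f := by positivity
    nlinarith
  rw [abs_le]
  constructor
  · have h1 := key f g hf hg
    linarith
  · have h1 := key g f hg hf
    rw [mul_comm g f, add_comm g f] at h1
    exact h1

/-- the affinity -/
theorem affin (a : ℝ≥0) (ha : 0 < a) {k : ℕ} (m : Fin k → ℕ) {θ : ℝ} (hθ : 0 < θ)
    (hC : ∏ i, cc a (m i) (m i) ≤ (1 / θ) ^ 2) :
    θ ≤ ∫ w, Real.sqrt (gg a m w) ∂(Measure.pi (fun _ : Fin k => poissonMeasure a)) := by
  have ha' : (0 : ℝ) < a := by exact_mod_cast ha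
  obtain ⟨g1, g2⟩ := Pool.Agent.H95.OM.t_GRA a ha k m m
  have e1 : ∫ w, Real.sqrt (gg a m w) ∂(Measure.pi (fun _ : Fin k => poissonMeasure a)) =
      ∫ w, 1 / Real.sqrt (gg a m (w + m)) ∂(Measure.pi (fun _ : Fin k => poissonMeasure a)) := by
    rw [shift a ha m (fun w => 1 / Real.sqrt (gg a m w))]
    refine integral_congr_ae (Filter.Eventually.of_forall fun w => ?_)
    simp only
    rw [one_div_mul_eq_div, Real.div_sqrt]
  have i1 : Integrable (fun w => gg a m (w + m)) (Measure.pi (fun _ : Fin k => poissonMeasure a)) :=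
    shift_int a ha m (fun w => gg a m w) g1
  have e2 : ∫ w, gg a m (w + m) ∂(Measure.pi (fun _ : Fin k => poissonMeasure a)) ≤ (1 / θ) ^ 2 := by
    rw [shift a ha m (fun w => gg a m w)]
    unfold P at g2
    rw [g2]
    exact hC
  have hlow : ∀ w : Fin k → ℕ, ∏ i, (1 / (a : ℝ) ^ m i) ≤ gg a m (w + m) := by
    intro w
    unfold gg
    refine Finset.prod_le_prod (fun i _ => by positivity) fun i _ => ?_
    refine div_le_div_of_nonneg_right ?_ (by positivity)
    have h1 : 0 < ((w + m) i).descFactorial (m i) :=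
      Nat.descFactorial_pos.2 (by rw [Pi.add_apply]; omega)
    exact_mod_cast h1
  have hpos : 0 < ∏ i, (1 / (a : ℝ) ^ m i) := Finset.prod_pos fun i _ => by positivity
  have i2 : Integrable (fun w => 1 / Real.sqrt (gg a m (w + m)))
      (Measure.pi (fun _ : Fin k => poissonMeasure a)) := by
    refine Integrable.mono' (integrable_const (1 / Real.sqrt (∏ i, (1 / (a : ℝ) ^ m i))))
      (measurable_of_countable _).aestronglyMeasurable ?_
    refine Filter.Eventually.of_forall fun w => ?_
    rw [Real.norm_eq_abs, abs_of_nonneg (by positivity)]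
    exact one_div_le_one_div_of_le (Real.sqrt_pos.2 hpos) (Real.sqrt_le_sqrt (hlow w))
  have h1 : ∫ w, (3 / 2 * θ - 1 / 2 * θ ^ 3 * gg a m (w + m))
      ∂(Measure.pi (fun _ : Fin k => poissonMeasure a)) ≤
      ∫ w, 1 / Real.sqrt (gg a m (w + m)) ∂(Measure.pi (fun _ : Fin k => poissonMeasure a)) := by
    refine integral_mono ((integrable_const _).sub (i1.const_mul _)) i2 fun w => ?_
    exact tang hθ.le (hpos.trans_le (hlow w))
  have h0 : ∫ w, 1 / 2 * θ ^ 3 * gg a m (w + m) ∂(Measure.pi (fun _ : Fin k => poissonMeasure a)) =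
      1 / 2 * θ ^ 3 * ∫ w, gg a m (w + m) ∂(Measure.pi (fun _ : Fin k => poissonMeasure a)) :=
    integral_const_mul _ _
  rw [integral_sub (integrable_const _) (i1.const_mul _), h0] at h1
  simp only [integral_const, probReal_univ, one_smul] at h1
  rw [e1]
  refine le_trans ?_ h1
  have h2 : 1 / 2 * θ ^ 3 * ∫ w, gg a m (w + m) ∂(Measure.pi (fun _ : Fin k => poissonMeasure a)) ≤
      1 / 2 * θ ^ 3 * (1 / θ) ^ 2 := mul_le_mul_of_nonneg_left e2 (by positivity)
  have h3 : 1 / 2 * θ ^ 3 * (1 / θ) ^ 2 = 1 / 2 * θ := by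
    field_simp
  linarith

/-- **Module AFF.** -/
theorem t_AFF : S_AFF := by
  intro a ha k u v φ hφ
  have ha' : (0 : ℝ) < a := by exact_mod_cast ha
  set z : Fin k → ℕ := fun i => min (u i) (v i) with hz
  set d : Fin k → ℕ := fun i => u i - v i with hd
  set e : Fin k → ℕ := fun i => v i - u i with he
  have hu : u = d + z := by
    funext i
    simp only [hz, hd, Pi.add_apply]
    omega
  have hv : v = e + z := by
    funext i
    simp only [hz, he, Pi.add_apply]
    omega
  have hde : ∀ i, d i = 0 ∨ e i = 0 := by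
    intro i
    simp only [hd, he]
    omega
  set θ : ℝ := Real.exp (-(∑ i, ((u i : ℝ) - v i) ^ 2) / a / 2) with hθ
  have hθ0 : 0 < θ := Real.exp_pos _
  have hm : ∀ i, (((d + e) i : ℕ) : ℝ) ^ 2 = ((u i : ℝ) - v i) ^ 2 := by
    intro i
    simp only [hd, he, Pi.add_apply]
    rcases le_total (u i) (v i) with h | h
    · rw [Nat.sub_eq_zero_of_le h, zero_add, Nat.cast_sub h]
      ring
    · rw [Nat.sub_eq_zero_of_le h, add_zero, Nat.cast_sub h]
  have hC : ∏ i, cc a ((d + e) i) ((d + e) i) ≤ (1 / θ) ^ 2 := by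
    have h1 : ∏ i, cc a ((d + e) i) ((d + e) i) ≤ ∏ i, Real.exp (((u i : ℝ) - v i) ^ 2 / a) := by
      refine Finset.prod_le_prod (fun i _ => cc_nonneg a _ _) fun i _ => ?_
      have := cc_le a ha ((d + e) i)
      rw [hm i] at this
      exact this
    refine h1.trans (le_of_eq ?_)
    rw [← Real.exp_sum, hθ, one_div, ← Real.exp_neg, ← Real.exp_nat_mul, ← Finset.sum_div]
    congr 1
    push_cast
    ring
  have hA := affin a ha (d + e) hθ0 hC
  have q1 : P a (fun w => φ (w + u)) = ∫ w, φ (w + z) * gg a d w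
      ∂(Measure.pi (fun _ : Fin k => poissonMeasure a)) := by
    unfold P
    rw [← shift a ha d (fun w => φ (w + z))]
    refine integral_congr_ae (Filter.Eventually.of_forall fun w => ?_)
    simp only
    rw [hu, add_assoc]
  have q2 : P a (fun w => φ (w + v)) = ∫ w, φ (w + z) * gg a e w
      ∂(Measure.pi (fun _ : Fin k => poissonMeasure a)) := by
    unfold P
    rw [← shift a ha e (fun w => φ (w + z))]
    refine integral_congr_ae (Filter.Eventually.of_forall fun w => ?_)
    simp only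
    rw [hv, add_assoc]
  have i1 : ∀ c : Fin k → ℕ, Integrable (fun w => φ (w + z) * gg a c w)
      (Measure.pi (fun _ : Fin k => poissonMeasure a)) := by
    intro c
    refine Integrable.mono' (gg_int a ha c) (measurable_of_countable _).aestronglyMeasurable ?_
    refine Filter.Eventually.of_forall fun w => ?_
    rw [Real.norm_eq_abs, abs_mul, abs_of_nonneg (gg_nonneg a c w)]
    exact mul_le_of_le_one_left (gg_nonneg a c w) (hφ _)
  have i2 : Integrable (fun w => Real.sqrt (gg a d w * gg a e w))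
      (Measure.pi (fun _ : Fin k => poissonMeasure a)) := by
    refine Integrable.mono' ((gg_int a ha d).add (gg_int a ha e))
      (measurable_of_countable _).aestronglyMeasurable ?_
    refine Filter.Eventually.of_forall fun w => ?_
    have n1 := gg_nonneg a d w
    have n2 := gg_nonneg a e w
    rw [Real.norm_eq_abs, abs_of_nonneg (Real.sqrt_nonneg _), Pi.add_apply]
    rw [Real.sqrt_le_left (by positivity)]
    nlinarith
  have i3 : Integrable (fun w => gg a d w + gg a e w)
      (Measure.pi (fun _ : Fin k => poissonMeasure a)) := (gg_int a ha d).add (gg_int a ha e)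
  rw [q1, q2, ← integral_sub (i1 d) (i1 e)]
  have h1 : |∫ w, (φ (w + z) * gg a d w - φ (w + z) * gg a e w)
      ∂(Measure.pi (fun _ : Fin k => poissonMeasure a))| ≤
      ∫ w, ((1 + θ ^ 2 / 2) * (gg a d w + gg a e w) - 2 * θ * Real.sqrt (gg a d w * gg a e w))
      ∂(Measure.pi (fun _ : Fin k => poissonMeasure a)) := by
    refine (abs_integral_le_integral_abs).trans (integral_mono ((i1 d).sub (i1 e)).abs
      ((i3.const_mul _).sub (i2.const_mul _)) fun w => ?_)
    simp only
    rw [← mul_sub, abs_mul]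
    have n3 : |φ (w + z)| * |gg a d w - gg a e w| ≤ 1 * |gg a d w - gg a e w| :=
      mul_le_mul_of_nonneg_right (hφ _) (abs_nonneg _)
    rw [one_mul] at n3
    exact n3.trans (abs_sub_le_aff (gg_nonneg a d w) (gg_nonneg a e w) hθ0.le)
  refine h1.trans ?_
  rw [integral_sub (i3.const_mul _) (i2.const_mul _), integral_const_mul,
    integral_const_mul, integral_add (gg_int a ha d) (gg_int a ha e), gg_total a ha d, gg_total a ha e]
  have h2 : ∫ w, Real.sqrt (gg a d w * gg a e w) ∂(Measure.pi (fun _ : Fin k => poissonMeasure a)) =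
      ∫ w, Real.sqrt (gg a (d + e) w) ∂(Measure.pi (fun _ : Fin k => poissonMeasure a)) := by
    refine integral_congr_ae (Filter.Eventually.of_forall fun w => ?_)
    simp only
    rw [gg_mul a d e hde w]
  rw [h2]
  have h3 : Real.exp (-(∑ i, ((u i : ℝ) - v i) ^ 2) / a) = θ ^ 2 := by
    rw [hθ, ← Real.exp_nat_mul]
    congr 1
    push_cast
    ring
  rw [h3]
  have h4 := mul_le_mul_of_nonneg_left hA (show (0 : ℝ) ≤ 2 * θ by positivity)
  nlinarith

end Pool.Agent.H5.OM
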