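import Pool.Agent.H5.OM.C2a

set_option autoImplicit false

/-!
# Module C2: the odd primes
-/

namespace Pool.Agent.H5.OM

open Finset hiding val
open Pool.Agent.H19.OM

theorem expi (x : ℝ) :
    ‖Complex.exp ((x : ℂ) * Complex.I) - 1 - (x : ℂ) * Complex.I‖ ≤ 3 * x ^ 2 := by
  have h0 : ‖(x : ℂ) * Complex.I‖ = |x| := by simp
  by_cases h : |x| ≤ 1
  · refine (Complex.norm_exp_sub_one_sub_id_le (by rw [h0]; exact h)).trans ?_
    rw [h0, sq_abs]
    nlinarith [sq_nonneg x]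
  · push Not at h
    have h1 : ‖Complex.exp ((x : ℂ) * Complex.I)‖ = 1 := Complex.norm_exp_ofReal_mul_I x
    have h2 : ‖Complex.exp ((x : ℂ) * Complex.I) - 1 - (x : ℂ) * Complex.I‖ ≤ 1 + 1 + |x| := by
      refine (norm_sub_le _ _).trans ?_
      rw [h0]
      have h3 := norm_sub_le (Complex.exp ((x : ℂ) * Complex.I)) 1
      rw [h1, norm_one] at h3
      linarith
    have h4 : x ^ 2 = |x| ^ 2 := (sq_abs x).symm
    rw [h4]
    nlinarith

theorem stat_eq (L : ℕ → ℕ) (p m n : ℕ) :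
    stat 2 m 0 (fun i => ((∑ p ∈ ({p} : Finset ℕ), Pool.Agent.H19.OM.val p (L p) (n + i) : ℕ) : ℝ)) =
      ∑ a ∈ Icc 1 (L p), Dd (p ^ a) m n := by
  unfold stat Dd
  rw [Finset.sum_comm]
  refine Finset.sum_congr rfl fun j _ => ?_
  rw [Finset.sum_sub_distrib]
  simp only [Finset.sum_singleton, val_eq, Nat.zero_mod, add_zero, zero_add, Nat.one_mod]

theorem G_le (p m L : ℕ) (hp : 3 ≤ p) (hm : 1 ≤ m) :
    ∑ a ∈ Icc 1 L, (2 * (a : ℝ) - 1) * min (1 : ℝ) (2 * (m : ℝ) / ((p ^ a : ℕ) : ℝ)) ≤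
      50 * ((1 + Real.log m) ^ 2 * min 1 ((m : ℝ) / p)) := by
  have hp0 : (3 : ℝ) ≤ p := by exact_mod_cast hp
  have hp1 : (0 : ℝ) < p := by linarith
  have hm0 : (1 : ℝ) ≤ m := by exact_mod_cast hm
  have hlog : 0 ≤ Real.log m := Real.log_natCast_nonneg m
  have hcoef : ∀ a ∈ Icc 1 L, (0 : ℝ) ≤ 2 * (a : ℝ) - 1 := by
    intro a ha
    have : (1 : ℝ) ≤ a := by exact_mod_cast (Finset.mem_Icc.1 ha).1
    linarith
  by_cases h : 2 * m < p
  · have h' : 2 * (m : ℝ) < p := by exact_mod_cast h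
    have hx0 : (0 : ℝ) ≤ 1 / p := by positivity
    have hx1 : (1 : ℝ) / p ≤ 1 / 3 := one_div_le_one_div_of_le (by norm_num) hp0
    have h1 : ∑ a ∈ Icc 1 L, (2 * (a : ℝ) - 1) * min (1 : ℝ) (2 * (m : ℝ) / ((p ^ a : ℕ) : ℝ)) ≤
        2 * m * ∑ a ∈ Icc 1 L, (2 * (a : ℝ) - 1) * (1 / (p : ℝ)) ^ a := by
      rw [Finset.mul_sum]
      refine Finset.sum_le_sum fun a ha => ?_
      refine (mul_le_mul_of_nonneg_left (min_le_right _ _) (hcoef a ha)).trans (le_of_eq ?_)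
      push_cast
      rw [one_div, inv_pow]
      ring
    have h2 := geo (1 / (p : ℝ)) hx0 (by linarith) L
    have h3 : 2 * (1 / (p : ℝ)) / (1 - 1 / p) ^ 2 ≤ 9 / 2 * (1 / p) := by
      have h4 : (4 : ℝ) / 9 ≤ (1 - 1 / p) ^ 2 := by nlinarith
      rw [div_le_iff₀ (by positivity)]
      nlinarith
    have h5 : min 1 ((m : ℝ) / p) = m / p := min_eq_right (by rw [div_le_one hp1]; linarith)
    rw [h5]
    refine h1.trans ?_
    have h6 : 2 * (m : ℝ) * ∑ a ∈ Icc 1 L, (2 * (a : ℝ) - 1) * (1 / (p : ℝ)) ^ a ≤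
        2 * m * (9 / 2 * (1 / p)) := mul_le_mul_of_nonneg_left (h2.trans h3) (by positivity)
    have h7 : 2 * (m : ℝ) * (9 / 2 * (1 / p)) = 9 * (m / p) := by ring
    rw [h7] at h6
    refine h6.trans ?_
    have h8 : (0 : ℝ) ≤ m / p := by positivity
    have h9 : (1 : ℝ) ≤ (1 + Real.log m) ^ 2 := by nlinarith
    nlinarith [mul_le_mul_of_nonneg_right h9 h8]
  · push Not at h
    have h' : (p : ℝ) ≤ 2 * m := by exact_mod_cast h
    obtain ⟨s, hs⟩ : ∃ s : ℝ, s = 1 / (1 + Real.log m) := ⟨_, rfl⟩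
    have hs0 : 0 < s := by rw [hs]; positivity
    have hs1 : s ≤ 1 := by
      rw [hs, div_le_one (by linarith)]
      linarith
    obtain ⟨x, hx⟩ : ∃ x : ℝ, x = Real.exp (-(s * Real.log p)) := ⟨_, rfl⟩
    have hlogp : 1 ≤ Real.log p := by
      rw [Real.le_log_iff_exp_le hp1]
      have := Real.exp_one_lt_d9
      linarith
    have hx0 : 0 ≤ x := by rw [hx]; exact (Real.exp_pos _).le
    have hx1 : x ≤ 1 - s / 2 := by
      have h1 : x ≤ Real.exp (-s) := by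
        rw [hx]
        apply Real.exp_le_exp.2
        nlinarith
      have h2 : Real.exp (-s) ≤ 1 / (1 + s) := by
        rw [Real.exp_neg, ← one_div]
        exact one_div_le_one_div_of_le (by linarith) (by linarith [Real.add_one_le_exp s])
      have h3 : 1 / (1 + s) ≤ 1 - s / 2 := by
        rw [div_le_iff₀ (by linarith)]
        nlinarith
      linarith
    have h1 : ∀ a ∈ Icc 1 L, min (1 : ℝ) (2 * (m : ℝ) / ((p ^ a : ℕ) : ℝ)) ≤ 3 * x ^ a := by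
      intro a ha
      have hy : (0 : ℝ) < 2 * (m : ℝ) / ((p ^ a : ℕ) : ℝ) := by positivity
      have h2 : min (1 : ℝ) (2 * (m : ℝ) / ((p ^ a : ℕ) : ℝ)) ≤
          (2 * (m : ℝ) / ((p ^ a : ℕ) : ℝ)) ^ s := by
        rcases le_total 1 (2 * (m : ℝ) / ((p ^ a : ℕ) : ℝ)) with h3 | h3
        · exact (min_le_left _ _).trans (Real.one_le_rpow h3 hs0.le)
        · refine (min_le_right _ _).trans ?_
          conv_lhs => rw [← Real.rpow_one (2 * (m : ℝ) / ((p ^ a : ℕ) : ℝ))]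
          exact Real.rpow_le_rpow_of_exponent_ge hy h3 hs1
      refine h2.trans ?_
      rw [Real.rpow_def_of_pos hy, Real.log_div (by positivity) (by positivity), Nat.cast_pow,
        Real.log_pow, hx, ← Real.exp_nat_mul]
      have h4 : (Real.log (2 * (m : ℝ)) - a * Real.log p) * s ≤ 1 + a * (-(s * Real.log p)) := by
        have h5 : Real.log (2 * (m : ℝ)) ≤ 1 + Real.log m := by
          rw [Real.log_mul (by norm_num) (by positivity)]
          have := Real.log_two_lt_d9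
          linarith
        have h6 : (1 + Real.log m) * s = 1 := by
          rw [hs]
          field_simp
        nlinarith
      refine (Real.exp_le_exp.2 h4).trans ?_
      rw [Real.exp_add]
      apply mul_le_mul_of_nonneg_right _ (Real.exp_pos _).le
      have := Real.exp_one_lt_d9
      linarith
    have h2 : ∑ a ∈ Icc 1 L, (2 * (a : ℝ) - 1) * min (1 : ℝ) (2 * (m : ℝ) / ((p ^ a : ℕ) : ℝ)) ≤
        3 * ∑ a ∈ Icc 1 L, (2 * (a : ℝ) - 1) * x ^ a := by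
      rw [Finset.mul_sum]
      refine Finset.sum_le_sum fun a ha => ?_
      have h3 := mul_le_mul_of_nonneg_left (h1 a ha) (hcoef a ha)
      linarith
    have h3 := geo x hx0 (by linarith) L
    have h4 : 2 * x / (1 - x) ^ 2 ≤ 8 * (1 + Real.log m) ^ 2 := by
      have h5 : s ^ 2 / 4 ≤ (1 - x) ^ 2 := by nlinarith
      have h6 : 2 * x / (1 - x) ^ 2 ≤ 2 / (s ^ 2 / 4) := by
        apply div_le_div₀ (by norm_num) (by linarith) (by positivity) h5
      refine h6.trans (le_of_eq ?_)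
      rw [hs]
      field_simp
      norm_num
    have h5 : 1 / 2 ≤ min 1 ((m : ℝ) / p) := by
      refine le_min (by norm_num) ?_
      rw [le_div_iff₀ hp1]
      linarith
    have h6 : (0 : ℝ) ≤ (1 + Real.log m) ^ 2 := by positivity
    nlinarith [mul_le_mul_of_nonneg_left h5 h6]

/-- the mean square of the statistic -/
theorem sum_sq (p m L q : ℕ) (hp : Odd p) (hq : ∀ a ∈ Icc 1 L, p ^ a ∣ q) :
    ∑ n ∈ range q, (∑ a ∈ Icc 1 L, Dd (p ^ a) m n) ^ 2 ≤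
      q * ∑ a ∈ Icc 1 L, (2 * (a : ℝ) - 1) * min (1 : ℝ) (2 * (m : ℝ) / ((p ^ a : ℕ) : ℝ)) := by
  have h1 : ∀ n ∈ range q, (∑ a ∈ Icc 1 L, Dd (p ^ a) m n) ^ 2 ≤
      ∑ a ∈ Icc 1 L, (2 * (a : ℝ) - 1) * |Dd (p ^ a) m n| := by
    intro n _
    refine le_trans ?_ (sq_le (fun a => |Dd (p ^ a) m n|)
      (fun a => ⟨abs_nonneg _, abs_Dd_le _ m n hp.pow⟩) L)
    rw [← sq_abs (∑ a ∈ Icc 1 L, Dd (p ^ a) m n)]
    exact pow_le_pow_left₀ (abs_nonneg _) (Finset.abs_sum_le_sum_abs _ _) 2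
  refine (Finset.sum_le_sum h1).trans ?_
  rw [Finset.sum_comm, Finset.mul_sum]
  refine Finset.sum_le_sum fun a ha => ?_
  rw [← Finset.mul_sum]
  have h2 : (1 : ℝ) ≤ a := by exact_mod_cast (Finset.mem_Icc.1 ha).1
  have h3 := mul_le_mul_of_nonneg_left (sum_abs_Dd (p ^ a) q m hp.pow (hq a ha))
    (show (0 : ℝ) ≤ 2 * (a : ℝ) - 1 by linarith)
  refine h3.trans (le_of_eq ?_)
  ring

theorem mo_eq (L : ℕ → ℕ) (p : ℕ) : Mo L {p} = p ^ L p := by
  unfold Mo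
  rw [Finset.prod_singleton]

theorem charJ_le (L : ℕ → ℕ) (p m : ℕ) (θ : ℝ) (hp : p.Prime) (hp2 : p ≠ 2) (hm : 1 ≤ m) :
    ‖charJ L {p} m θ - 1‖ ≤ 150 * θ ^ 2 * ((1 + Real.log m) ^ 2 * min 1 ((m : ℝ) / p)) := by
  have hp3 : 3 ≤ p := by
    have := hp.two_le
    omega
  have hodd : Odd p := hp.odd_of_ne_two hp2
  obtain ⟨q, hq⟩ : ∃ q : ℕ, q = p ^ L p := ⟨_, rfl⟩
  have hq0 : 0 < q := by rw [hq]; exact pow_pos hp.pos _
  have hqR : (0 : ℝ) < q := by exact_mod_cast hq0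
  have hqC : (q : ℂ) ≠ 0 := by exact_mod_cast hq0.ne'
  have hdvd : ∀ a ∈ Icc 1 (L p), p ^ a ∣ q := by
    intro a ha
    rw [hq]
    exact pow_dvd_pow p (Finset.mem_Icc.1 ha).2
  obtain ⟨X, hX⟩ : ∃ X : ℕ → ℝ, X = fun n => ∑ a ∈ Icc 1 (L p), Dd (p ^ a) m n := ⟨_, rfl⟩
  have h0 : ∑ n ∈ range q, X n = 0 := by
    rw [hX, Finset.sum_comm]
    exact Finset.sum_eq_zero fun a ha => sum_Dd (p ^ a) q m (pow_pos hp.pos _) (hdvd a ha)
  have h1 : charJ L {p} m θ - 1 = (∑ n ∈ range q, (Complex.exp (((θ * X n : ℝ) : ℂ) * Complex.I) - 1 -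
      ((θ * X n : ℝ) : ℂ) * Complex.I)) / q := by
    unfold charJ
    rw [mo_eq, ← hq]
    simp only [stat_eq]
    rw [Finset.sum_sub_distrib, Finset.sum_sub_distrib, Finset.sum_const, Finset.card_range,
      nsmul_eq_mul, mul_one]
    have h2 : ∑ n ∈ range q, ((θ * X n : ℝ) : ℂ) * Complex.I = 0 := by
      rw [← Finset.sum_mul, ← Complex.ofReal_sum, ← Finset.mul_sum, h0, mul_zero, Complex.ofReal_zero,
        zero_mul]
    rw [h2, sub_zero, sub_div, div_self hqC, hX]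
  rw [h1, norm_div, Complex.norm_natCast, div_le_iff₀ hqR]
  refine (norm_sum_le _ _).trans ?_
  have h3 : ∑ n ∈ range q, ‖Complex.exp (((θ * X n : ℝ) : ℂ) * Complex.I) - 1 -
      ((θ * X n : ℝ) : ℂ) * Complex.I‖ ≤ ∑ n ∈ range q, 3 * θ ^ 2 * (X n) ^ 2 := by
    refine Finset.sum_le_sum fun n _ => ?_
    refine (expi (θ * X n)).trans (le_of_eq ?_)
    ring
  refine h3.trans ?_
  rw [← Finset.mul_sum]
  have h4 := sum_sq p m (L p) q hodd hdvd
  have h5 := G_le p m (L p) hp3 hm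
  have h6 : ∑ n ∈ range q, (X n) ^ 2 ≤ q * (50 * ((1 + Real.log m) ^ 2 * min 1 ((m : ℝ) / p))) := by
    rw [hX]
    exact h4.trans (mul_le_mul_of_nonneg_left h5 hqR.le)
  have h7 := mul_le_mul_of_nonneg_left h6 (show (0 : ℝ) ≤ 3 * θ ^ 2 by positivity)
  refine h7.trans (le_of_eq ?_)
  ring

theorem psi_le (p L m : ℕ) (θ : ℝ) (hp : p.Prime) (hp2 : p ≠ 2) :
    |1 - ‖psi p L θ‖ ^ (2 * m)| ≤ 9 / 2 * θ ^ 2 * ((m : ℝ) / p) := by
  have hp3 : 3 ≤ p := by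
    have := hp.two_le
    omega
  have hp0 : (3 : ℝ) ≤ p := by exact_mod_cast hp3
  have hp1 : (0 : ℝ) < p := by linarith
  obtain ⟨q, hq⟩ : ∃ q : ℕ, q = p ^ L := ⟨_, rfl⟩
  have hq0 : 0 < q := by rw [hq]; exact pow_pos hp.pos _
  have hqR : (0 : ℝ) < q := by exact_mod_cast hq0
  have hqC : ((p : ℂ) ^ L) = (q : ℂ) := by rw [hq]; push_cast; rfl
  have hpsi : psi p L θ = (∑ r ∈ range q, Complex.exp
      (((θ * Pool.Agent.H19.OM.val p L r : ℝ) : ℂ) * Complex.I)) / q := by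
    unfold psi
    rw [hqC, ← hq]
  have hn1 : ‖psi p L θ‖ ≤ 1 := by
    rw [hpsi, norm_div, Complex.norm_natCast, div_le_one hqR]
    refine (norm_sum_le _ _).trans ?_
    simp only [Complex.norm_exp_ofReal_mul_I, Finset.sum_const, Finset.card_range, nsmul_eq_mul,
      mul_one]
    exact le_rfl
  have hv : ∑ r ∈ range q, (Pool.Agent.H19.OM.val p L r : ℝ) ^ 2 ≤ q * (9 / 2 * (1 / p)) := by
    have h1 : ∀ r ∈ range q, (Pool.Agent.H19.OM.val p L r : ℝ) ^ 2 ≤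
        ∑ a ∈ Icc 1 L, (2 * (a : ℝ) - 1) * ind (p ^ a) r := by
      intro r _
      rw [val_eq]
      exact sq_le (fun a => ind (p ^ a) r) (fun a => ⟨ind_nonneg _ _, ind_le _ _⟩) L
    refine (Finset.sum_le_sum h1).trans ?_
    rw [Finset.sum_comm]
    have h2 : ∀ a ∈ Icc 1 L, ∑ r ∈ range q, (2 * (a : ℝ) - 1) * ind (p ^ a) r =
        q * ((2 * (a : ℝ) - 1) * (1 / (p : ℝ)) ^ a) := by
      intro a ha
      rw [← Finset.mul_sum]
      have h3 := sum_ind (p ^ a) q 0 (pow_pos hp.pos _)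
        (by rw [hq]; exact pow_dvd_pow p (Finset.mem_Icc.1 ha).2)
      simp only [add_zero] at h3
      rw [h3]
      push_cast
      rw [one_div, inv_pow]
      ring
    rw [Finset.sum_congr rfl h2, ← Finset.mul_sum]
    apply mul_le_mul_of_nonneg_left _ hqR.le
    have hx0 : (0 : ℝ) ≤ 1 / p := by positivity
    have hx1 : (1 : ℝ) / p ≤ 1 / 3 := one_div_le_one_div_of_le (by norm_num) hp0
    refine (geo (1 / (p : ℝ)) hx0 (by linarith) L).trans ?_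
    have h4 : (4 : ℝ) / 9 ≤ (1 - 1 / p) ^ 2 := by nlinarith
    rw [div_le_iff₀ (by positivity)]
    nlinarith
  have hre : 1 - θ ^ 2 / 2 * (9 / 2 * (1 / p)) ≤ ‖psi p L θ‖ := by
    refine le_trans ?_ (Complex.re_le_norm _)
    rw [hpsi]
    have h1 : ((∑ r ∈ range q, Complex.exp
        (((θ * Pool.Agent.H19.OM.val p L r : ℝ) : ℂ) * Complex.I)) / (q : ℂ)).re =
        (∑ r ∈ range q, Real.cos (θ * Pool.Agent.H19.OM.val p L r)) / q := by
      have h2 : ((q : ℕ) : ℂ) = (((q : ℕ) : ℝ) : ℂ) := by push_cast; rfl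
      rw [h2, Complex.div_ofReal_re, Complex.re_sum]
      simp only [Complex.exp_ofReal_mul_I_re]
    rw [h1, le_div_iff₀ hqR]
    have h3 : ∑ r ∈ range q, (1 - (θ * Pool.Agent.H19.OM.val p L r) ^ 2 / 2) ≤
        ∑ r ∈ range q, Real.cos (θ * Pool.Agent.H19.OM.val p L r) :=
      Finset.sum_le_sum fun r _ => Real.one_sub_sq_div_two_le_cos
    refine le_trans ?_ h3
    rw [Finset.sum_sub_distrib, Finset.sum_const, Finset.card_range, nsmul_eq_mul, mul_one]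
    have h4 : ∑ r ∈ range q, (θ * (Pool.Agent.H19.OM.val p L r : ℝ)) ^ 2 / 2 =
        θ ^ 2 / 2 * ∑ r ∈ range q, (Pool.Agent.H19.OM.val p L r : ℝ) ^ 2 := by
      rw [Finset.mul_sum]
      refine Finset.sum_congr rfl fun r _ => ?_
      ring
    rw [h4]
    have h5 := mul_le_mul_of_nonneg_left hv (show (0 : ℝ) ≤ θ ^ 2 / 2 by positivity)
    nlinarith
  have h0 : 0 ≤ ‖psi p L θ‖ := norm_nonneg _
  have h6 : ‖psi p L θ‖ ^ (2 * m) ≤ 1 := pow_le_one₀ h0 hn1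
  have h7 := one_add_mul_le_pow (a := ‖psi p L θ‖ - 1) (by linarith) (2 * m)
  rw [add_sub_cancel] at h7
  rw [abs_of_nonneg (by linarith)]
  push_cast at h7
  have h8 : (0 : ℝ) ≤ m := Nat.cast_nonneg m
  have h9 : (2 * (m : ℝ)) * (1 - ‖psi p L θ‖) ≤ 2 * m * (θ ^ 2 / 2 * (9 / 2 * (1 / p))) :=
    mul_le_mul_of_nonneg_left (by linarith) (by positivity)
  have h10 : 2 * (m : ℝ) * (θ ^ 2 / 2 * (9 / 2 * (1 / p))) = 9 / 2 * θ ^ 2 * ((m : ℝ) / p) := by ring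
  linarith

/-- **Module C2.** -/
theorem t_C2 : S_C2 := by
  refine ⟨200, by norm_num, ?_⟩
  intro L p m θ hp hp2 hL hm
  have h1 := charJ_le L p m θ hp hp2 hm
  have h2 := psi_le p (L p) m θ hp hp2
  have h3 : ‖charJ L {p} m θ - ((‖psi p (L p) θ‖ ^ (2 * m) : ℝ) : ℂ)‖ ≤
      ‖charJ L {p} m θ - 1‖ + |1 - ‖psi p (L p) θ‖ ^ (2 * m)| := by
    have h4 : charJ L {p} m θ - ((‖psi p (L p) θ‖ ^ (2 * m) : ℝ) : ℂ) =
        (charJ L {p} m θ - 1) + (((1 - ‖psi p (L p) θ‖ ^ (2 * m) : ℝ)) : ℂ) := by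
      push_cast
      ring
    rw [h4]
    refine (norm_add_le _ _).trans ?_
    rw [Complex.norm_real, Real.norm_eq_abs]
  have h5 : 0 ≤ (1 + Real.log m) ^ 2 * min 1 ((m : ℝ) / p) := by positivity
  have h6 : (0 : ℝ) ≤ (m : ℝ) / p := by positivity
  have h7 : 0 ≤ θ ^ 2 * ((1 + Real.log m) ^ 2 * min 1 ((m : ℝ) / p)) := by positivity
  have h8 : 0 ≤ θ ^ 2 * ((m : ℝ) / p) := by positivity
  nlinarith

end Pool.Agent.H5.OM
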