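import Pool.Agent.H19.OM.Stm2

set_option autoImplicit false

/-!
# Module C2: counting
-/

namespace Pool.Agent.H5.OM

open Finset hiding val
open Pool.Agent.H19.OM

/-- indicator of divisibility -/
noncomputable def ind (P t : ℕ) : ℝ := if P ∣ t then 1 else 0

theorem ind_nonneg (P t : ℕ) : 0 ≤ ind P t := by
  unfold ind
  split_ifs <;> norm_num

theorem ind_le (P t : ℕ) : ind P t ≤ 1 := by
  unfold ind
  split_ifs <;> norm_num

theorem val_eq (p L n : ℕ) : (val p L n : ℝ) = ∑ a ∈ Icc 1 L, ind (p ^ a) n := by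
  unfold val ind
  rw [Finset.card_filter]
  push_cast
  rfl

theorem card_dvd (P q i : ℕ) (hP : 0 < P) (h : P ∣ q) :
    ((range q).filter (fun n => P ∣ n + i)).card = q / P := by
  have h2 : P ∣ (P - i % P) + i := by
    have h3 : i % P < P := Nat.mod_lt _ hP
    have h4 : (P - i % P) + i = P + P * (i / P) := by
      have h5 := Nat.mod_add_div i P
      omega
    rw [h4]
    exact dvd_add dvd_rfl (dvd_mul_right _ _)
  have h1 : ∀ n, P ∣ n + i ↔ n ≡ (P - i % P) [MOD P] := by
    intro n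
    constructor
    · intro h5
      have h6 : n + i ≡ (P - i % P) + i [MOD P] :=
        ((Nat.modEq_zero_iff_dvd.2 h5)).trans (Nat.modEq_zero_iff_dvd.2 h2).symm
      exact Nat.ModEq.add_right_cancel' i h6
    · intro h5
      have h6 : n + i ≡ (P - i % P) + i [MOD P] := h5.add_right i
      exact Nat.modEq_zero_iff_dvd.1 (h6.trans (Nat.modEq_zero_iff_dvd.2 h2))
  have h7 : (range q).filter (fun n => P ∣ n + i) =
      (range q).filter (fun n => n ≡ (P - i % P) [MOD P]) := by
    apply Finset.filter_congr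
    intro n _
    exact h1 n
  rw [h7, ← Nat.count_eq_card_filter_range, Nat.count_modEq_card _ hP, Nat.mod_eq_zero_of_dvd h]
  simp

theorem sum_ind (P q i : ℕ) (hP : 0 < P) (h : P ∣ q) :
    ∑ n ∈ range q, ind P (n + i) = (q : ℝ) / P := by
  unfold ind
  rw [Finset.sum_boole, card_dvd P q i hP h, Nat.cast_div h (by positivity)]

theorem F_val (P : ℕ) (hP : Odd P) (T : ℕ) :
    ∑ t ∈ range T, (-1 : ℝ) ^ t * ind P t = if Even ((T + P - 1) / P) then 0 else 1 := by
  have hP0 : 0 < P := hP.pos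
  induction T with
  | zero =>
    have h1 : (0 + P - 1) / P = 0 := Nat.div_eq_of_lt (by omega)
    rw [h1]
    simp
  | succ T ih =>
    rw [Finset.sum_range_succ, ih]
    have hm := Nat.mod_add_div T P
    have hlt := Nat.mod_lt T hP0
    by_cases h : P ∣ T
    · obtain ⟨k, rfl⟩ := h
      have h1 : (P * k + P - 1) / P = k := by
        rw [Nat.add_sub_assoc hP0, Nat.mul_add_div hP0, Nat.div_eq_of_lt (by omega), add_zero]
      have h2 : (P * k + 1 + P - 1) / P = k + 1 := by
        have h3 : P * k + 1 + P - 1 = P * k + P := by omega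
        rw [h3, Nat.mul_add_div hP0, Nat.div_self hP0]
      rw [h1, h2]
      have h3 : (-1 : ℝ) ^ (P * k) = (-1) ^ k := by
        rw [pow_mul, hP.neg_one_pow]
      rw [h3]
      unfold ind
      rw [if_pos (dvd_mul_right P k), mul_one]
      by_cases hk : Even k
      · rw [if_pos hk, if_neg (by rw [Nat.even_add_one]; exact fun h => h hk), hk.neg_one_pow]
        norm_num
      · rw [if_neg hk, if_pos (by rw [Nat.even_add_one]; exact hk),
          (Nat.not_even_iff_odd.1 hk).neg_one_pow]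
        norm_num
    · have h0 : T % P ≠ 0 := fun h' => h (Nat.dvd_of_mod_eq_zero h')
      obtain ⟨r, hr⟩ : ∃ r, T % P = r + 1 := ⟨T % P - 1, by omega⟩
      have hr' : r < P := by omega
      have hr2 : r + 1 < P := by omega
      have h1 : (T + P - 1) / P = T / P + 1 := by
        have h3 : T + P - 1 = P * (T / P) + (P + r) := by omega
        rw [h3, Nat.mul_add_div hP0, Nat.add_div_left _ hP0, Nat.div_eq_of_lt hr']
      have h2 : (T + 1 + P - 1) / P = T / P + 1 := by
        have h3 : T + 1 + P - 1 = P * (T / P) + (P + (r + 1)) := by omega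
        rw [h3, Nat.mul_add_div hP0, Nat.add_div_left _ hP0, Nat.div_eq_of_lt hr2]
      rw [h1, h2]
      unfold ind
      rw [if_neg h, mul_zero, add_zero]

/-- the difference of the numbers of multiples at even and odd positions -/
noncomputable def Dd (P m n : ℕ) : ℝ := ∑ j ∈ range m, (ind P (n + j * 2) - ind P (n + (j * 2 + 1)))

theorem Dd_eq (P m n : ℕ) : Dd P m n = (-1) ^ n *
    (∑ t ∈ range (n + m * 2), (-1 : ℝ) ^ t * ind P t - ∑ t ∈ range n, (-1 : ℝ) ^ t * ind P t) := by
  unfold Dd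
  induction m with
  | zero => simp
  | succ m ih =>
    rw [Finset.sum_range_succ, ih, show n + (m + 1) * 2 = (n + m * 2 + 1) + 1 by ring,
      Finset.sum_range_succ, Finset.sum_range_succ]
    have h1 : (-1 : ℝ) ^ (n + m * 2) = (-1) ^ n := by
      rw [pow_add, mul_comm m 2, pow_mul]
      norm_num
    have h2 : (-1 : ℝ) ^ n * (-1) ^ n = 1 := by
      rw [← mul_pow]
      norm_num
    rw [pow_succ (-1 : ℝ) (n + m * 2), h1, show n + (m * 2 + 1) = n + m * 2 + 1 by ring]
    linear_combination (ind P (n + m * 2 + 1) - ind P (n + m * 2)) * h2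

theorem abs_Dd_le (P m n : ℕ) (hP : Odd P) : |Dd P m n| ≤ 1 := by
  rw [Dd_eq, abs_mul, abs_pow, abs_neg, abs_one, one_pow, one_mul, F_val P hP, F_val P hP]
  split_ifs <;> norm_num

theorem sum_Dd (P q m : ℕ) (hP : 0 < P) (h : P ∣ q) : ∑ n ∈ range q, Dd P m n = 0 := by
  unfold Dd
  rw [Finset.sum_comm]
  refine Finset.sum_eq_zero fun j _ => ?_
  rw [Finset.sum_sub_distrib, sum_ind P q _ hP h, sum_ind P q _ hP h, sub_self]

theorem sum_abs_Dd (P q m : ℕ) (hP : Odd P) (h : P ∣ q) :
    ∑ n ∈ range q, |Dd P m n| ≤ (q : ℝ) * min (1 : ℝ) (2 * (m : ℝ) / (P : ℝ)) := by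
  rw [mul_min_of_nonneg _ _ (Nat.cast_nonneg q)]
  refine le_min ?_ ?_
  · refine (Finset.sum_le_card_nsmul _ _ 1 fun n _ => abs_Dd_le P m n hP).trans (le_of_eq ?_)
    simp
  · have h1 : ∀ n, |Dd P m n| ≤ ∑ j ∈ range m, (ind P (n + j * 2) + ind P (n + (j * 2 + 1))) := by
      intro n
      unfold Dd
      refine (Finset.abs_sum_le_sum_abs _ _).trans (Finset.sum_le_sum fun j _ => ?_)
      have h2 := ind_nonneg P (n + j * 2)
      have h3 := ind_nonneg P (n + (j * 2 + 1))
      rw [abs_le]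
      constructor <;> linarith
    refine (Finset.sum_le_sum fun n _ => h1 n).trans (le_of_eq ?_)
    rw [Finset.sum_comm]
    have h2 : ∀ j ∈ range m, ∑ n ∈ range q, (ind P (n + j * 2) + ind P (n + (j * 2 + 1))) =
        2 * ((q : ℝ) / P) := by
      intro j _
      rw [Finset.sum_add_distrib, sum_ind P q _ hP.pos h, sum_ind P q _ hP.pos h, two_mul]
    rw [Finset.sum_congr rfl h2, Finset.sum_const, Finset.card_range, nsmul_eq_mul]
    ring

theorem sq_le (e : ℕ → ℝ) (he : ∀ a, 0 ≤ e a ∧ e a ≤ 1) (L : ℕ) :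
    (∑ a ∈ Icc 1 L, e a) ^ 2 ≤ ∑ a ∈ Icc 1 L, (2 * (a : ℝ) - 1) * e a := by
  induction L with
  | zero => simp
  | succ L ih =>
    rw [Finset.sum_Icc_succ_top (by omega), Finset.sum_Icc_succ_top (by omega)]
    have h1 : ∑ a ∈ Icc 1 L, e a ≤ L := by
      refine (Finset.sum_le_card_nsmul _ _ 1 fun a _ => (he a).2).trans (le_of_eq ?_)
      simp
    have h2 := he (L + 1)
    push_cast
    nlinarith [mul_nonneg h2.1 (sub_nonneg.2 h1), mul_nonneg h2.1 (sub_nonneg.2 h2.2)]

/-- the geometric sum -/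
theorem geo (x : ℝ) (hx0 : 0 ≤ x) (hx1 : x < 1) (L : ℕ) :
    ∑ a ∈ Icc 1 L, (2 * (a : ℝ) - 1) * x ^ a ≤ 2 * x / (1 - x) ^ 2 := by
  have h1 : ∑ a ∈ Icc 1 L, (2 * (a : ℝ) - 1) * x ^ a =
      (x * (1 + x) - x ^ (L + 1) * ((2 * L + 1) - (2 * L - 1) * x)) / (1 - x) ^ 2 := by
    have hx : (1 - x) ≠ 0 := by linarith
    induction L with
    | zero =>
      simp only [Nat.cast_zero]
      rw [eq_div_iff (pow_ne_zero 2 hx)]
      simp
    | succ L ih =>
      rw [Finset.sum_Icc_succ_top (by omega), ih]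
      push_cast
      field_simp
      ring
  rw [h1]
  have h2 : 0 < (1 - x) ^ 2 := by
    have : 0 < 1 - x := by linarith
    positivity
  have h3 : 0 ≤ x ^ (L + 1) * ((2 * L + 1) - (2 * L - 1) * x) := by
    apply mul_nonneg (pow_nonneg hx0 _)
    have : (0 : ℝ) ≤ L := Nat.cast_nonneg L
    nlinarith
  rw [div_le_div_iff_of_pos_right h2]
  nlinarith

end Pool.Agent.H5.OM
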