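import Pool.Agent.H19.OM.Stm

set_option autoImplicit false

/-!
# Module HYB: all the primes, from (BLK), (SML) and (CRT)
-/

namespace Pool.Agent.H5.OM

open Finset MeasureTheory ProbabilityTheory Pool.Agent.H19.OM
open scoped NNReal ENNReal

theorem mo_pos (L : ℕ → ℕ) (S : Finset ℕ) (hS : ∀ p ∈ S, p.Prime) : 0 < Mo L S :=
  Finset.prod_pos fun p hp => pow_pos (hS p hp).pos _

theorem j_sub (L : ℕ → ℕ) (S : Finset ℕ) {k : ℕ} (φ ψ : (Fin k → ℕ) → ℝ) :
    J L S φ - J L S ψ = J L S (fun u => φ u - ψ u) := by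
  unfold J
  rw [← sub_div, ← Finset.sum_sub_distrib]

theorem i_sub (L : ℕ → ℕ) (S : Finset ℕ) {k : ℕ} (φ ψ : (Fin k → ℕ) → ℝ) :
    I L S φ - I L S ψ = I L S (fun u => φ u - ψ u) := by
  unfold I
  rw [← sub_div, ← Finset.sum_sub_distrib]

theorem j_abs (L : ℕ → ℕ) (S : Finset ℕ) (hS : ∀ p ∈ S, p.Prime) {k : ℕ} (φ : (Fin k → ℕ) → ℝ) (c : ℝ)
    (h : ∀ u, |φ u| ≤ c) : |J L S φ| ≤ c := by
  have hM : (0 : ℝ) < Mo L S := by exact_mod_cast mo_pos L S hS
  unfold J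
  rw [abs_div, abs_of_pos hM, div_le_iff₀ hM]
  refine (Finset.abs_sum_le_sum_abs _ _).trans ((Finset.sum_le_card_nsmul _ _ c fun n _ => h _).trans ?_)
  rw [card_range, nsmul_eq_mul, mul_comm]

theorem i_abs (L : ℕ → ℕ) (S : Finset ℕ) (hS : ∀ p ∈ S, p.Prime) {k : ℕ} (φ : (Fin k → ℕ) → ℝ) (c : ℝ)
    (h : ∀ u, |φ u| ≤ c) : |I L S φ| ≤ c := by
  have hM : (0 : ℝ) < (Mo L S : ℝ) ^ k := pow_pos (by exact_mod_cast mo_pos L S hS) k
  unfold I
  rw [abs_div, abs_of_pos hM, div_le_iff₀ hM]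
  refine (Finset.abs_sum_le_sum_abs _ _).trans ((Finset.sum_le_card_nsmul _ _ c fun n _ => h _).trans ?_)
  rw [Fintype.card_piFinset, nsmul_eq_mul, mul_comm]
  simp

theorem bd_shift {k : ℕ} {φ : (Fin k → ℕ) → ℝ} (h : Bd φ) (u : Fin k → ℕ) : Bd (fun v => φ (u + v)) :=
  fun _ => h _

theorem bd_int (a : ℝ≥0) {k : ℕ} (φ : (Fin k → ℕ) → ℝ) (h : Bd φ) :
    Integrable φ (Measure.pi (fun _ : Fin k => poissonMeasure a)) := by
  refine Integrable.mono' (integrable_const (1 : ℝ)) (measurable_of_countable _).aestronglyMeasurable ?_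
  exact Filter.Eventually.of_forall fun w => by rw [Real.norm_eq_abs]; exact h w

theorem j_swap (L : ℕ → ℕ) (S : Finset ℕ) (a : ℝ≥0) {k : ℕ} (φ : (Fin k → ℕ) → ℝ) (h : Bd φ) :
    J L S (fun u => P a (fun w => φ (u + w))) = P a (fun w => J L S (fun u => φ (w + u))) := by
  unfold J P
  rw [integral_div, integral_finset_sum]
  · refine congrArg (fun t : ℝ => t / _) (Finset.sum_congr rfl fun n _ => ?_)
    refine integral_congr_ae (Filter.Eventually.of_forall fun w => ?_)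
    simp only [add_comm]
  · intro n _
    exact bd_int a _ fun w => h _

theorem i_swap (L : ℕ → ℕ) (S : Finset ℕ) (a : ℝ≥0) {k : ℕ} (φ : (Fin k → ℕ) → ℝ) (h : Bd φ) :
    I L S (fun u => P a (fun w => φ (u + w))) = P a (fun w => I L S (fun u => φ (w + u))) := by
  unfold I P
  rw [integral_div, integral_finset_sum]
  · refine congrArg (fun t : ℝ => t / _) (Finset.sum_congr rfl fun n _ => ?_)
    refine integral_congr_ae (Filter.Eventually.of_forall fun w => ?_)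
    simp only [add_comm]
  · intro n _
    exact bd_int a _ fun w => h _

/-- **Module HYB.** -/
theorem t_HYB (hBLK : S_BLK) (hSML : S_SML) (hCRT : S_CRT) : S_HYB := by
  obtain ⟨K, hK, hSM⟩ := hSML
  refine ⟨K, hK, ?_⟩
  intro S B k L hSB hk hka hB hS φ hφ
  set a : ℝ≥0 := ∑ q ∈ B, 1 / (q : ℝ≥0) with ha
  have haR : (a : ℝ) = ∑ q ∈ B, 1 / (q : ℝ) := by
    rw [ha]
    push_cast
    rfl
  rw [← haR] at hka ⊢
  have hS' : ∀ p ∈ S, p.Prime ∧ 1 ≤ L p ∧ (L p : ℝ) ^ 2 ≤ a := by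
    rw [haR]
    exact hS
  have hSp : ∀ p ∈ S, p.Prime := fun p hp => (hS p hp).1
  have hall : ∀ p ∈ S ∪ B, p.Prime := by
    intro p hp
    rcases Finset.mem_union.1 hp with h | h
    · exact hSp p h
    · exact (hB p h).1
  obtain ⟨hJ, hI⟩ := hCRT L S B hSB hall k φ
  have h1 : |J L S (fun u => J L B (fun v => φ (u + v))) - J L S (fun u => P a (fun v => φ (u + v)))| ≤
      3 * ∑ q ∈ B, ((k : ℝ) / q) ^ 2 := by
    rw [j_sub]
    exact j_abs L S hSp _ _ fun u => (hBLK B k L hk hB _ (bd_shift hφ u)).1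
  have h2 : |I L S (fun u => I L B (fun v => φ (u + v))) - I L S (fun u => P a (fun v => φ (u + v)))| ≤
      3 * ∑ q ∈ B, ((k : ℝ) / q) ^ 2 := by
    rw [i_sub]
    exact i_abs L S hSp _ _ fun u => (hBLK B k L hk hB _ (bd_shift hφ u)).2
  have h3 := hSM S k L a hk hka hS' φ hφ
  rw [hJ, hI]
  rw [j_swap L S a φ hφ] at h1
  rw [i_swap L S a φ hφ] at h2
  rw [abs_le] at h1 h2 h3 ⊢
  constructor <;> linarith [h1.1, h1.2, h2.1, h2.2, h3.1, h3.2]

end Pool.Agent.H5.OM
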